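import Pool.Agent.Q298.CQ.Stm

/-!
# Lemma job CQ-15 (project CQ of helper298): facts on `eta`
-/

set_option autoImplicit false

open MeasureTheory ProbabilityTheory Set Filter Topology
open scoped ENNReal

namespace Pool.Agent.Q223.CQ

open Pool.Agent.Q298.CQ

/-- the semicircle -/
noncomputable def sc (w : ℝ) : ℝ := Real.sqrt (1 - w ^ 2)

theorem sc_nonneg (w : ℝ) : 0 ≤ sc w := Real.sqrt_nonneg _

theorem sc_le_one (w : ℝ) : sc w ≤ 1 := by
  unfold sc
  exact Real.sqrt_le_one.2 (by nlinarith [sq_nonneg w])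

theorem sc_neg (w : ℝ) : sc (-w) = sc w := by
  unfold sc; rw [neg_sq]

theorem sc_zero {w : ℝ} (h : 1 ≤ |w|) : sc w = 0 := by
  unfold sc
  apply Real.sqrt_eq_zero_of_nonpos
  have : 1 ≤ w ^ 2 := by
    rw [← sq_abs]; nlinarith
  linarith

theorem sc_cont : Continuous sc := by unfold sc; fun_prop

theorem phi_neg (s x : ℝ) : phi s (-x) = -phi s x := by
  unfold phi; rw [Real.sign_neg, abs_neg, neg_mul]

theorem phi_pos {s x : ℝ} (hx : 0 < x) : phi s x = x ^ s := by
  unfold phi; rw [Real.sign_of_pos hx, abs_of_pos hx, one_mul]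

theorem phi_zero (s : ℝ) : phi s 0 = 0 := by
  unfold phi; rw [Real.sign_zero, zero_mul]

theorem phi_abs_le (s x : ℝ) : |phi s x| ≤ |x| ^ s := by
  unfold phi
  rw [abs_mul]
  have h1 : |Real.sign x| ≤ 1 := by
    rcases Real.sign_apply_eq x with h | h | h <;> rw [h] <;> norm_num
  have h2 : 0 ≤ |x| ^ s := Real.rpow_nonneg (abs_nonneg _) _
  rw [abs_of_nonneg h2]
  nlinarith

theorem phi_meas (s : ℝ) : Measurable (phi s) := by
  unfold phi
  have h1 : Measurable Real.sign := by
    unfold Real.sign
    exact Measurable.ite measurableSet_Iio measurable_const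
      (Measurable.ite measurableSet_Ioi measurable_const measurable_const)
  exact h1.mul ((continuous_abs.measurable).pow_const s)

/-- `eta` as an integral over the line -/
theorem eta_eq (s v : ℝ) : eta s v = ∫ w, sc w * phi s (w + v) := by
  unfold eta
  have h1 : ∀ w, w ∉ Ioo (-1 : ℝ) 1 → sc w * phi s (w + v) = 0 := by
    intro w hw
    have : 1 ≤ |w| := by
      by_contra hcon
      push Not at hcon
      exact hw (abs_lt.1 hcon)
    rw [sc_zero this, zero_mul]
  exact setIntegral_eq_integral_of_forall_compl_eq_zero h1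

theorem eta_eq' (s v : ℝ) : eta s v = ∫ w, phi s w * sc (w - v) := by
  rw [eta_eq]
  have h1 := integral_add_right_eq_self (μ := (volume : Measure ℝ))
    (fun w => phi s w * sc (w - v)) v
  rw [← h1]
  refine integral_congr_ae (Eventually.of_forall fun w => ?_)
  change sc w * phi s (w + v) = phi s (w + v) * sc (w + v - v)
  rw [add_sub_cancel_right, mul_comm]

theorem eta_neg (s v : ℝ) : eta s (-v) = -eta s v := by
  rw [eta_eq, eta_eq, ← integral_neg]
  have h1 := integral_neg_eq_self (fun w => sc w * phi s (w + -v)) (volume : Measure ℝ)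
  rw [← h1]
  refine integral_congr_ae (Eventually.of_forall fun w => ?_)
  change sc (-w) * phi s (-w + -v) = -(sc w * phi s (w + v))
  rw [sc_neg, ← neg_add, phi_neg]
  ring

/-- a function of `|x|` integrable on the positive half line -/
theorem int_abs {h : ℝ → ℝ} (hf : IntegrableOn (fun x => h |x|) (Ioi 0)) :
    Integrable (fun x => h |x|) := by
  have int_Iic : IntegrableOn (fun x ↦ h |x|) (Iic 0) := by
    rw [← Measure.map_neg_eq_self (volume : Measure ℝ)]
    let m : MeasurableEmbedding fun x : ℝ => -x := (Homeomorph.neg ℝ).measurableEmbedding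
    rw [m.integrableOn_map_iff]
    simp_rw [Function.comp_def, abs_neg, neg_preimage, neg_Iic, neg_zero]
    exact Iff.mpr integrableOn_Ici_iff_integrableOn_Ioi hf
  have := int_Iic.union hf
  rwa [Iic_union_Ioi, integrableOn_univ] at this

theorem bound_int {s : ℝ} (hs : -1 < s) {M : ℝ} (hM : 0 ≤ M) :
    Integrable (fun w : ℝ => if |w| ≤ M then |w| ^ s else 0) := by
  have h1 := int_abs (h := fun x => if x ≤ M then x ^ s else 0) ?_
  · exact h1
  · have h2 : IntegrableOn (fun x : ℝ => x ^ s) (Ioc 0 M) :=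
      (intervalIntegral.intervalIntegrable_rpow' (a := 0) (b := M) hs).1
    have h3 : IntegrableOn ((Iic M).indicator fun x : ℝ => x ^ s) (Ioi 0) := by
      rw [IntegrableOn, integrable_indicator_iff measurableSet_Iic, IntegrableOn,
        Measure.restrict_restrict measurableSet_Iic, inter_comm, Ioi_inter_Iic]
      exact h2
    refine h3.congr_fun ?_ measurableSet_Ioi
    intro x hx
    have hx0 : 0 < x := hx
    change (Iic M).indicator (fun x : ℝ => x ^ s) x = if |x| ≤ M then |x| ^ s else 0
    rw [abs_of_pos hx0]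
    by_cases h : x ≤ M
    · rw [if_pos h, indicator_of_mem (show x ∈ Iic M from h)]
    · rw [if_neg h, indicator_of_notMem (show x ∉ Iic M from h)]

theorem g_bound {s v M : ℝ} (hM : |v| + 1 ≤ M) (w : ℝ) :
    ‖phi s w * sc (w - v)‖ ≤ if |w| ≤ M then |w| ^ s else 0 := by
  rw [norm_mul, Real.norm_eq_abs, Real.norm_eq_abs]
  split_ifs with h
  · have h1 := phi_abs_le s w
    have h2 : |sc (w - v)| ≤ 1 := by
      rw [abs_of_nonneg (sc_nonneg _)]; exact sc_le_one _
    have h3 : 0 ≤ |sc (w - v)| := abs_nonneg _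
    have h4 : 0 ≤ |phi s w| := abs_nonneg _
    have h5 : 0 ≤ |w| ^ s := Real.rpow_nonneg (abs_nonneg _) _
    nlinarith
  · have h1 : 1 ≤ |w - v| := by
      push Not at h
      have := abs_sub_abs_le_abs_sub w v
      linarith
    rw [sc_zero h1, abs_zero, mul_zero]

theorem g_meas (s v : ℝ) : AEStronglyMeasurable (fun w => phi s w * sc (w - v)) volume :=
  ((phi_meas s).mul (sc_cont.measurable.comp (measurable_id.sub_const v))).aestronglyMeasurable

theorem g_int {s : ℝ} (hs : -1 < s) (v : ℝ) : Integrable (fun w => phi s w * sc (w - v)) :=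
  (bound_int hs (by positivity : (0 : ℝ) ≤ |v| + 1)).mono' (g_meas s v)
    (Eventually.of_forall fun w => g_bound le_rfl w)

theorem eta_cont {s : ℝ} (hs : -1 < s) : Continuous (eta s) := by
  have h0 : eta s = fun v => ∫ w, phi s w * sc (w - v) := funext fun v => eta_eq' s v
  rw [h0, continuous_iff_continuousAt]
  intro v₀
  refine continuousAt_of_dominated (bound := fun w => if |w| ≤ |v₀| + 2 then |w| ^ s else 0)
    (Eventually.of_forall fun v => g_meas s v) ?_ (bound_int hs (by positivity)) ?_
  · have h1 : ∀ᶠ v in 𝓝 v₀, |v| < |v₀| + 1 :=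
      (continuous_abs.tendsto v₀).eventually (gt_mem_nhds (by linarith))
    filter_upwards [h1] with v hv
    exact Eventually.of_forall fun w => g_bound (by linarith) w
  · refine Eventually.of_forall fun w => ?_
    have : Continuous fun v => phi s w * sc (w - v) :=
      continuous_const.mul (sc_cont.comp (continuous_const.sub continuous_id))
    exact this.continuousAt

theorem sc_anti {x y : ℝ} (h : |x| ≤ |y|) : sc y ≤ sc x := by
  unfold sc
  apply Real.sqrt_le_sqrt
  have := sq_le_sq.2 h
  linarith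

theorem sc_lt {x y : ℝ} (h : |x| < |y|) (hx : |x| < 1) : sc y < sc x := by
  unfold sc
  have h1 := sq_lt_sq.2 h
  have h2 : x ^ 2 < 1 := by
    rw [← sq_abs]; nlinarith [abs_nonneg x]
  exact Real.sqrt_lt_sqrt_iff_of_pos (by linarith) |>.2 (by linarith)

theorem eta_pos {s : ℝ} (hs : -1 < s) {v : ℝ} (hv : 0 < v) : 0 < eta s v := by
  have hint := g_int hs v
  have h1 : eta s v = ∫ w in Ioi (0 : ℝ), w ^ s * (sc (w - v) - sc (w + v)) := by
    rw [eta_eq']
    have h2 : ∫ w, phi s w * sc (w - v) = (∫ w in Iic (0 : ℝ), phi s w * sc (w - v)) +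
        ∫ w in Ioi (0 : ℝ), phi s w * sc (w - v) := by
      rw [← setIntegral_union (Iic_disjoint_Ioi le_rfl) measurableSet_Ioi hint.integrableOn
        hint.integrableOn, Iic_union_Ioi, setIntegral_univ]
    have h3 : ∫ w in Iic (0 : ℝ), phi s w * sc (w - v) =
        ∫ w in Ioi (0 : ℝ), phi s (-w) * sc (-w - v) := by
      have := integral_comp_neg_Ioi 0 (fun w => phi s w * sc (w - v))
      rw [neg_zero] at this
      exact this.symm
    have hint2 : Integrable (fun w => phi s (-w) * sc (-w - v)) := hint.comp_neg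
    rw [h2, h3, ← integral_add hint2.integrableOn hint.integrableOn]
    refine setIntegral_congr_fun measurableSet_Ioi fun w hw => ?_
    have hw0 : 0 < w := hw
    change phi s (-w) * sc (-w - v) + phi s w * sc (w - v) = w ^ s * (sc (w - v) - sc (w + v))
    have e1 : -w - v = -(w + v) := by ring
    rw [phi_neg, e1, sc_neg, phi_pos hw0]
    ring
  rw [h1]
  have hint3 : IntegrableOn (fun w => w ^ s * (sc (w - v) - sc (w + v))) (Ioi 0) := by
    have e2 : Integrable (fun w => phi s w * sc (w - -v)) := g_int hs (-v)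
    have e3 := (hint.sub e2).integrableOn (s := Ioi (0 : ℝ))
    refine e3.congr_fun ?_ measurableSet_Ioi
    intro w hw
    have hw0 : 0 < w := hw
    change phi s w * sc (w - v) - phi s w * sc (w - -v) = w ^ s * (sc (w - v) - sc (w + v))
    rw [phi_pos hw0, sub_neg_eq_add]
    ring
  have hnn : ∀ w ∈ Ioi (0 : ℝ), 0 ≤ w ^ s * (sc (w - v) - sc (w + v)) := by
    intro w hw
    have hw0 : 0 < w := hw
    refine mul_nonneg (Real.rpow_nonneg hw0.le _) (sub_nonneg.2 (sc_anti ?_))
    rw [abs_of_pos (by linarith : 0 < w + v), abs_le]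
    constructor <;> linarith
  rw [setIntegral_pos_iff_support_of_nonneg_ae]
  · have hsub : Ioo v (v + 1) ⊆ Function.support (fun w => w ^ s * (sc (w - v) - sc (w + v))) ∩
        Ioi 0 := by
      rintro w ⟨hw1, hw2⟩
      have hw0 : 0 < w := by linarith
      refine ⟨?_, hw0⟩
      rw [Function.mem_support]
      have h4 : sc (w + v) < sc (w - v) := by
        apply sc_lt
        · rw [abs_of_pos (by linarith : 0 < w + v), abs_of_pos (by linarith : 0 < w - v)]
          linarith
        · rw [abs_of_pos (by linarith : 0 < w - v)]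
          linarith
      have h5 : 0 < w ^ s := Real.rpow_pos_of_pos hw0 _
      exact (mul_pos h5 (sub_pos.2 h4)).ne'
    refine lt_of_lt_of_le ?_ (measure_mono hsub)
    rw [Real.volume_Ioo]
    simp
  · exact (ae_restrict_iff' measurableSet_Ioi).2 (Eventually.of_forall hnn)
  · exact hint3

theorem tT3a : Pool.Agent.Q298.CQ.T3a :=
  ⟨eta_neg, fun _ hs => ⟨eta_cont hs, fun _ hv => eta_pos hs hv⟩⟩

end Pool.Agent.Q223.CQ
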