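import Pool.Agent.Q223.CQ.Eta

/-!
# Lemma job CQ-16 (project CQ of helper298): monotonicity of `eta s v / v`, `0 ≤ s ≤ 1`
-/

set_option autoImplicit false

open MeasureTheory ProbabilityTheory Set Filter Topology
open scoped ENNReal

namespace Pool.Agent.Q223.CQ

open Pool.Agent.Q298.CQ

/-- four point inequality for concave functions -/
theorem four_point {g : ℝ → ℝ} (hg : ConcaveOn ℝ (Ici 0) g) {a b h : ℝ} (ha : 0 ≤ a) (hab : a ≤ b)
    (hh : 0 ≤ h) : g a + g (b + h) ≤ g (a + h) + g b := by
  rcases eq_or_lt_of_le (show (0 : ℝ) ≤ b + h - a by linarith) with h0 | h0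
  · have h1 : b = a := by linarith
    have h2 : h = 0 := by linarith
    rw [h1, h2]
    linarith
  · set L := b + h - a with hL
    have hm1 : a ∈ Ici (0 : ℝ) := ha
    have hm2 : b + h ∈ Ici (0 : ℝ) := by
      change 0 ≤ b + h
      linarith
    have q1 : (0 : ℝ) ≤ 1 - h / L := by rw [sub_nonneg, div_le_one h0]; linarith
    have q2 : (0 : ℝ) ≤ h / L := by positivity
    have e1 := hg.2 hm1 hm2 q1 q2 (show (1 - h / L) + h / L = 1 by ring)
    have e2 := hg.2 hm1 hm2 q2 q1 (show h / L + (1 - h / L) = 1 by ring)
    simp only [smul_eq_mul] at e1 e2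
    have e3 : (1 - h / L) * a + h / L * (b + h) = a + h := by
      field_simp
      rw [hL]; ring
    have e4 : h / L * a + (1 - h / L) * (b + h) = b := by
      field_simp
      rw [hL]; ring
    rw [e3] at e1
    rw [e4] at e2
    linarith

/-- the integral of `phi s` -/
noncomputable def Ph (s x : ℝ) : ℝ := |x| ^ (s + 1) / (s + 1)

theorem Ph_cont {s : ℝ} (hs : 0 ≤ s) : Continuous (Ph s) := by
  unfold Ph
  exact (continuous_abs.rpow_const fun x => Or.inr (by linarith)).div_const _

theorem Ph_deriv {s x : ℝ} (hs : 0 ≤ s) (hx : x ≠ 0) : HasDerivAt (Ph s) (phi s x) x := by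
  have h1 : (s + 1) ≠ 0 := by linarith
  rcases lt_or_gt_of_ne hx with h | h
  · have h2 : HasDerivAt (fun x : ℝ => (-x) ^ (s + 1) / (s + 1)) (phi s x) x := by
      have h3 := ((hasDerivAt_neg x).rpow_const (p := s + 1) (Or.inl (by linarith))).div_const
        (s + 1)
      have e : -1 * (s + 1) * (-x) ^ (s + 1 - 1) / (s + 1) = phi s x := by
        rw [add_sub_cancel_right]
        unfold phi
        rw [Real.sign_of_neg h, abs_of_neg h]
        field_simp
      rw [e] at h3
      exact h3
    refine h2.congr_of_eventuallyEq ?_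
    filter_upwards [gt_mem_nhds h] with y hy
    unfold Ph
    rw [abs_of_neg hy]
  · have h2 : HasDerivAt (fun x : ℝ => x ^ (s + 1) / (s + 1)) (phi s x) x := by
      have h3 := ((hasDerivAt_id x).rpow_const (p := s + 1) (Or.inl h.ne')).div_const (s + 1)
      have e : 1 * (s + 1) * (id x) ^ (s + 1 - 1) / (s + 1) = phi s x := by
        rw [add_sub_cancel_right, phi_pos h]
        simp only [id]
        field_simp
      rw [e] at h3
      exact h3
    refine h2.congr_of_eventuallyEq ?_
    filter_upwards [lt_mem_nhds h] with y hy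
    unfold Ph
    rw [abs_of_pos hy]

theorem phi_intervalIntegrable {s : ℝ} (hs : 0 ≤ s) (a b : ℝ) :
    IntervalIntegrable (phi s) volume a b := by
  have h1 : Continuous fun x : ℝ => |x| ^ s := continuous_abs.rpow_const fun x => Or.inr hs
  refine (h1.intervalIntegrable a b).mono_fun' ((phi_meas s).aestronglyMeasurable) ?_
  exact Eventually.of_forall fun x => phi_abs_le s x

theorem int_phi {s : ℝ} (hs : 0 ≤ s) (a b : ℝ) :
    ∫ x in a..b, phi s x = Ph s b - Ph s a := by
  refine integral_eq_of_hasDerivAt_off_countable _ _ (countable_singleton 0)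
    (Ph_cont hs).continuousOn (fun x hx => Ph_deriv hs ?_) (phi_intervalIntegrable hs a b)
  exact fun h => hx.2 (by rw [h]; exact mem_singleton 0)

/-- concavity: for `0 ≤ s ≤ 1` -/
theorem phi_diff_anti {s r : ℝ} (hs : 0 < s) (hs1 : s ≤ 1) (hr : 0 ≤ r) {u v : ℝ} (hu : 0 ≤ u)
    (huv : u ≤ v) : phi s (v + r) - phi s (v - r) ≤ phi s (u + r) - phi s (u - r) := by
  have hg := Real.concaveOn_rpow hs.le hs1
  have hp : ∀ x, 0 ≤ x → phi s x = x ^ s := by
    intro x hx
    rcases eq_or_lt_of_le hx with h | h
    · rw [← h, phi_zero, Real.zero_rpow hs.ne']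
    · exact phi_pos h
  have hA : ∀ u v : ℝ, r ≤ u → u ≤ v → phi s (v + r) - phi s (v - r) ≤
      phi s (u + r) - phi s (u - r) := by
    intro u v h1 h2
    rw [hp _ (by linarith), hp _ (by linarith), hp _ (by linarith), hp _ (by linarith)]
    have := four_point hg (a := u - r) (b := v - r) (h := 2 * r) (by linarith) (by linarith)
      (by linarith)
    have e1 : v - r + 2 * r = v + r := by ring
    have e2 : u - r + 2 * r = u + r := by ring
    rw [e1, e2] at this
    linarith
  have hB : ∀ u v : ℝ, 0 ≤ u → u ≤ v → v ≤ r → phi s (v + r) - phi s (v - r) ≤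
      phi s (u + r) - phi s (u - r) := by
    intro u v h0 h1 h2
    have e1 : v - r = -(r - v) := by ring
    have e2 : u - r = -(r - u) := by ring
    rw [e1, e2, phi_neg, phi_neg, hp _ (by linarith), hp _ (by linarith), hp _ (by linarith),
      hp _ (by linarith)]
    have := four_point hg (a := r - v) (b := u + r) (h := v - u) (by linarith) (by linarith)
      (by linarith)
    have e3 : u + r + (v - u) = v + r := by ring
    have e4 : r - v + (v - u) = r - u := by ring
    rw [e3, e4] at this
    linarith
  rcases le_total r u with h | h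
  · exact hA u v h huv
  · rcases le_total v r with h' | h'
    · exact hB u v hu huv h'
    · exact (hA r v le_rfl h').trans (hB u r hu h le_rfl)

theorem key_ineq {s r : ℝ} (hs : 0 ≤ s) (hs1 : s ≤ 1) (hr : 0 < r) {u v : ℝ} (hu : 0 < u)
    (huv : u ≤ v) :
    u * (Ph s (v + r) - Ph s (v - r)) ≤ v * (Ph s (u + r) - Ph s (u - r)) := by
  have hv : 0 < v := by linarith
  rcases eq_or_lt_of_le hs with h0 | h0
  · -- `s = 0`
    subst h0
    unfold Ph
    simp only [zero_add, Real.rpow_one, div_one]
    rw [abs_of_pos (by linarith : 0 < v + r), abs_of_pos (by linarith : 0 < u + r)]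
    rcases le_total r u with h | h
    · rw [abs_of_nonneg (by linarith : 0 ≤ v - r), abs_of_nonneg (by linarith : 0 ≤ u - r)]
      nlinarith
    · rcases le_total v r with h' | h'
      · rw [abs_of_nonpos (by linarith : v - r ≤ 0), abs_of_nonpos (by linarith : u - r ≤ 0)]
        nlinarith
      · rw [abs_of_nonneg (by linarith : 0 ≤ v - r), abs_of_nonpos (by linarith : u - r ≤ 0)]
        nlinarith
  · set H : ℝ → ℝ := fun x => Ph s (x + r) - Ph s (x - r) with hH
    have hd : ∀ x, HasDerivAt H (phi s (x + r) - phi s (x - r)) x := by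
      intro x
      have hall : ∀ y, HasDerivAt (Ph s) (phi s y) y := by
        intro y
        by_cases hy : y = 0
        · rw [hy, phi_zero]
          have h1 := hasDerivAt_abs_rpow 0 (p := s + 1) (by linarith)
          have h2 := h1.div_const (s + 1)
          simp only [mul_zero, zero_div] at h2
          exact h2
        · exact Ph_deriv hs hy
      have h1 := (hall (x + r)).comp x ((hasDerivAt_id x).add_const r)
      have h2 := (hall (x - r)).comp x ((hasDerivAt_id x).sub_const r)
      have h3 := h1.sub h2
      simp only [mul_one] at h3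
      exact h3
    have hconc : ConcaveOn ℝ (Ici 0) H := by
      refine AntitoneOn.concaveOn_of_deriv (convex_Ici 0)
        (fun x _ => (hd x).continuousAt.continuousWithinAt)
        (fun x _ => (hd x).differentiableAt.differentiableWithinAt) ?_
      intro x hx y hy hxy
      rw [interior_Ici] at hx hy
      have hx0 : 0 < x := hx
      rw [(hd x).deriv, (hd y).deriv]
      exact phi_diff_anti h0 hs1 hr.le hx0.le hxy
    have hH0 : H 0 = 0 := by
      rw [hH]
      simp only [zero_add, zero_sub]
      unfold Ph
      rw [abs_neg, sub_self]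
    have q1 : (0 : ℝ) ≤ 1 - u / v := by rw [sub_nonneg, div_le_one hv]; exact huv
    have q2 : (0 : ℝ) ≤ u / v := by positivity
    have h4 := hconc.2 (self_mem_Ici : (0 : ℝ) ∈ Ici 0) (show v ∈ Ici (0 : ℝ) from hv.le)
      q1 q2 (show (1 - u / v) + u / v = 1 by ring)
    simp only [smul_eq_mul, mul_zero, zero_add, hH0] at h4
    have e1 : u / v * v = u := by field_simp
    rw [e1] at h4
    have h5 : v * (u / v * H v) ≤ v * H u := mul_le_mul_of_nonneg_left h4 hv.le
    have e2 : v * (u / v * H v) = u * H v := by field_simp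
    rw [e2] at h5
    exact h5

/-- the integral of `v phi(w+u) - u phi(w+v)` over symmetric intervals -/
theorem K_nonneg {s r : ℝ} (hs : 0 ≤ s) (hs1 : s ≤ 1) (hr : 0 < r) {u v : ℝ} (hu : 0 < u)
    (huv : u ≤ v) :
    0 ≤ ∫ w in Ioo (-r) r, (v * phi s (w + u) - u * phi s (w + v)) := by
  rw [← integral_Ioc_eq_integral_Ioo, ← intervalIntegral.integral_of_le (by linarith)]
  have hI : ∀ c : ℝ, IntervalIntegrable (fun w => phi s (w + c)) volume (-r) r := by
    intro c
    have := (phi_intervalIntegrable hs (-r + c) (r + c)).comp_add_right c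
    simpa using this
  rw [intervalIntegral.integral_sub ((hI u).const_mul v) ((hI v).const_mul u),
    intervalIntegral.integral_const_mul, intervalIntegral.integral_const_mul,
    intervalIntegral.integral_comp_add_right (fun x => phi s x),
    intervalIntegral.integral_comp_add_right (fun x => phi s x), int_phi hs, int_phi hs]
  have := key_ineq hs hs1 hr hu huv
  have e1 : r + u = u + r := by ring
  have e2 : -r + u = u - r := by ring
  have e3 : r + v = v + r := by ring
  have e4 : -r + v = v - r := by ring
  rw [e1, e2, e3, e4]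
  linarith

theorem sc_lt_iff {t w : ℝ} (ht : 0 < t) (ht1 : t < 1) :
    t < sc w ↔ w ∈ Ioo (-(sc t)) (sc t) := by
  have h1 : 0 < 1 - t ^ 2 := by nlinarith
  have h2 : t < sc w ↔ t ^ 2 < 1 - w ^ 2 := by
    unfold sc
    exact Real.lt_sqrt ht.le
  have h3 : w ∈ Ioo (-(sc t)) (sc t) ↔ w ^ 2 < 1 - t ^ 2 := by
    rw [mem_Ioo, ← abs_lt]
    unfold sc
    rw [Real.lt_sqrt (abs_nonneg w), sq_abs]
  rw [h2, h3]
  constructor <;> intro h <;> linarith

theorem eta_ineq {s : ℝ} (hs : 0 ≤ s) (hs1 : s ≤ 1) {u v : ℝ} (hu : 0 < u) (huv : u ≤ v) :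
    u * eta s v ≤ v * eta s u := by
  have hs' : -1 < s := by linarith
  set k : ℝ → ℝ := fun w => v * phi s (w + u) - u * phi s (w + v) with hk
  set μ : Measure ℝ := volume.restrict (Ioo (-1) 1) with hμ
  set ν : Measure ℝ := volume.restrict (Ioo 0 1) with hν
  have hkint : Integrable k μ := by
    have hI : ∀ c : ℝ, Integrable (fun w => phi s (w + c)) μ := by
      intro c
      have := (phi_intervalIntegrable hs (-1 + c) (1 + c)).comp_add_right c
      have h2 : IntervalIntegrable (fun w => phi s (w + c)) volume (-1) 1 := by simpa using this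
      exact h2.1.mono_set Ioo_subset_Ioc_self
    exact ((hI u).const_mul v).sub ((hI v).const_mul u)
  have hD : v * eta s u - u * eta s v = ∫ w, sc w * k w ∂μ := by
    unfold eta
    have e : ∀ c : ℝ, IntegrableOn (fun w => sc w * phi s (w + c)) (Ioo (-1) 1) := by
      intro c
      have h1 := (g_int hs' c).comp_add_right c
      refine Integrable.integrableOn ?_
      refine h1.congr (Eventually.of_forall fun w => ?_)
      change phi s (w + c) * sc (w + c - c) = sc w * phi s (w + c)
      rw [add_sub_cancel_right, mul_comm]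
    change v * (∫ w in Ioo (-1 : ℝ) 1, sc w * phi s (w + u)) -
      u * (∫ w in Ioo (-1 : ℝ) 1, sc w * phi s (w + v)) = _
    rw [← integral_const_mul, ← integral_const_mul, ← integral_sub ((e u).const_mul v)
      ((e v).const_mul u)]
    refine integral_congr_ae (Eventually.of_forall fun w => ?_)
    change v * (sc w * phi s (w + u)) - u * (sc w * phi s (w + v)) =
      sc w * (v * phi s (w + u) - u * phi s (w + v))
    ring
  have hlayer : ∀ w, sc w * k w = ∫ t, (if t < sc w then k w else 0) ∂ν := by
    intro w
    have h1 : (fun t => if t < sc w then k w else 0) = (Iio (sc w)).indicator fun _ => k w := by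
      funext t
      by_cases h : t < sc w
      · rw [if_pos h, indicator_of_mem (show t ∈ Iio (sc w) from h)]
      · rw [if_neg h, indicator_of_notMem (show t ∉ Iio (sc w) from h)]
    rw [h1, integral_indicator measurableSet_Iio, hν, Measure.restrict_restrict measurableSet_Iio,
      setIntegral_const]
    have h2 : Iio (sc w) ∩ Ioo 0 1 = Ioo 0 (sc w) := by
      ext t
      simp only [mem_inter_iff, mem_Iio, mem_Ioo]
      constructor
      · rintro ⟨h3, h4, h5⟩
        exact ⟨h4, h3⟩
      · rintro ⟨h3, h4⟩
        exact ⟨h4, h3, h4.trans_le (sc_le_one w)⟩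
    rw [h2, Measure.real, Real.volume_Ioo, sub_zero, ENNReal.toReal_ofReal (sc_nonneg w),
      smul_eq_mul]
  have hkm : Measurable k := by
    have : ∀ c : ℝ, Measurable fun w => phi s (w + c) := fun c =>
      (phi_meas s).comp (measurable_id.add_const c)
    exact ((this u).const_mul v).sub ((this v).const_mul u)
  have hprod : Integrable (Function.uncurry fun w t => if t < sc w then k w else 0)
      (μ.prod ν) := by
    have h1 : Integrable (fun z : ℝ × ℝ => k z.1) (μ.prod ν) := hkint.comp_fst ν
    refine h1.mono ?_ (Eventually.of_forall fun z => ?_)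
    · refine Measurable.aestronglyMeasurable ?_
      refine Measurable.ite ?_ (hkm.comp measurable_fst) measurable_const
      exact measurableSet_lt measurable_snd (sc_cont.measurable.comp measurable_fst)
    · change ‖if z.2 < sc z.1 then k z.1 else 0‖ ≤ ‖k z.1‖
      split_ifs
      · exact le_rfl
      · rw [norm_zero]; exact norm_nonneg _
  have hfinal : 0 ≤ v * eta s u - u * eta s v := by
    rw [hD]
    simp only [hlayer]
    rw [integral_integral_swap hprod]
    refine setIntegral_nonneg measurableSet_Ioo fun t ht => ?_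
    have ht0 : 0 < sc t := by
      unfold sc
      apply Real.sqrt_pos.2
      nlinarith [ht.1, ht.2]
    have h3 : ∫ w, (if t < sc w then k w else 0) ∂μ = ∫ w in Ioo (-(sc t)) (sc t), k w := by
      have h4 : (fun w => if t < sc w then k w else 0) =
          (Ioo (-(sc t)) (sc t)).indicator k := by
        funext w
        by_cases h : t < sc w
        · rw [if_pos h, indicator_of_mem ((sc_lt_iff ht.1 ht.2).1 h)]
        · rw [if_neg h, indicator_of_notMem (fun h' => h ((sc_lt_iff ht.1 ht.2).2 h'))]
      rw [h4, integral_indicator measurableSet_Ioo, hμ,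
        Measure.restrict_restrict measurableSet_Ioo]
      congr 2
      refine inter_eq_left.2 (Ioo_subset_Ioo ?_ (sc_le_one t))
      have := sc_le_one t
      linarith
    rw [h3]
    exact K_nonneg hs hs1 ht0 hu huv
  linarith

theorem tT3b : Pool.Agent.Q298.CQ.T3b := by
  intro s hs hs1 u hu v hv huv
  have hu0 : 0 < u := hu
  have hv0 : 0 < v := hv
  change eta s v / v ≤ eta s u / u
  rw [div_le_div_iff₀ hv0 hu0]
  have := eta_ineq hs hs1 hu0 huv
  linarith

end Pool.Agent.Q223.CQ
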