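import Pool.Agent.Q298.CQ.Stm

/-!
# Lemma job CQ-19 (project CQ of helper298): sums of independent gamma variables
-/

set_option autoImplicit false

open MeasureTheory ProbabilityTheory Set
open scoped ENNReal

namespace Pool.Agent.Q223.CQ

theorem beta_int {a b x : ℝ} (ha : 0 < a) (hb : 0 < b) (hx : 0 < x) :
    ∫⁻ y in Ioo 0 x, ENNReal.ofReal (y ^ (a - 1) * (x - y) ^ (b - 1)) =
      ENNReal.ofReal (x ^ (a + b - 1) * beta a b) := by
  have hbeta := beta_pos ha hb
  set f : ℝ → ℝ≥0∞ := (Ioo 0 x).indicator
    (fun y => ENNReal.ofReal (y ^ (a - 1) * (x - y) ^ (b - 1))) with hf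
  have hfm : Measurable f := by
    refine Measurable.indicator ?_ measurableSet_Ioo
    exact ENNReal.measurable_ofReal.comp
      ((measurable_id.pow_const _).mul ((measurable_const.sub measurable_id).pow_const _))
  have h1 : ∫⁻ t, f (x * t) = ENNReal.ofReal |x⁻¹| * ∫⁻ y, f y := by
    have h0 := lintegral_map (μ := (volume : Measure ℝ)) hfm (measurable_const_mul x)
    rw [← h0, Real.map_volume_mul_left hx.ne', lintegral_smul_measure]
    rfl
  have h2 : ∀ t, f (x * t) = ENNReal.ofReal (x ^ (a + b - 2) * beta a b) * betaPDF a b t := by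
    intro t
    by_cases ht : 0 < t ∧ t < 1
    · have hm : x * t ∈ Ioo 0 x := ⟨by nlinarith [ht.1], by nlinarith [ht.2]⟩
      rw [hf, indicator_of_mem hm, betaPDF_of_pos_lt_one ht.1 ht.2,
        ← ENNReal.ofReal_mul (by positivity)]
      congr 1
      have e1 : x - x * t = x * (1 - t) := by ring
      rw [e1, Real.mul_rpow hx.le ht.1.le, Real.mul_rpow hx.le (by linarith [ht.2])]
      have e2 : x ^ (a + b - 2) = x ^ (a - 1) * x ^ (b - 1) := by
        rw [← Real.rpow_add hx]; congr 1; ring
      rw [e2]
      field_simp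
    · have hm : x * t ∉ Ioo 0 x := by
        rintro ⟨h3, h4⟩
        apply ht
        constructor
        · by_contra hcon
          push Not at hcon
          nlinarith
        · by_contra hcon
          push Not at hcon
          nlinarith
      rw [hf, indicator_of_notMem hm]
      have h5 : betaPDF a b t = 0 := by
        rw [betaPDF_eq, if_neg ht, ENNReal.ofReal_zero]
      rw [h5, mul_zero]
  rw [← lintegral_indicator measurableSet_Ioo, ← hf]
  have hbm : Measurable (betaPDF a b) := by
    unfold betaPDF betaPDFReal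
    refine ENNReal.measurable_ofReal.comp (Measurable.ite ?_ ?_ measurable_const)
    · exact measurableSet_Ioo (a := (0 : ℝ)) (b := 1)
    · exact (measurable_const.mul (measurable_id.pow_const _)).mul
        ((measurable_const.sub measurable_id).pow_const _)
  simp only [h2] at h1
  rw [lintegral_const_mul _ hbm, lintegral_betaPDF_eq_one ha hb, mul_one] at h1
  have h6 : ENNReal.ofReal x * (ENNReal.ofReal |x⁻¹| * ∫⁻ y, f y) = ∫⁻ y, f y := by
    rw [← mul_assoc, ← ENNReal.ofReal_mul hx.le, abs_of_pos (inv_pos.2 hx),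
      mul_inv_cancel₀ hx.ne', ENNReal.ofReal_one, one_mul]
  rw [← h6, ← h1, ← ENNReal.ofReal_mul hx.le]
  congr 1
  have e3 : x ^ (a + b - 1) = x * x ^ (a + b - 2) := by
    conv_rhs => rw [← Real.rpow_one x]
    rw [Real.rpow_one x]
    nth_rw 2 [← Real.rpow_one x]
    rw [← Real.rpow_add hx]
    congr 1; ring
  rw [e3]; ring

theorem gamma_conv_pdf {a b r x : ℝ} (ha : 0 < a) (hb : 0 < b) (hr : 0 < r) (hx : x ≠ 0) :
    ∫⁻ y, gammaPDF a r y * gammaPDF b r (-y + x) = gammaPDF (a + b) r x := by
  rcases lt_or_gt_of_ne hx with hx | hx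
  · rw [gammaPDF_of_neg hx]
    have : ∀ y, gammaPDF a r y * gammaPDF b r (-y + x) = 0 := by
      intro y
      by_cases hy : y < 0
      · rw [gammaPDF_of_neg hy, zero_mul]
      · rw [gammaPDF_of_neg (x := -y + x) (by linarith), mul_zero]
    simp only [this, lintegral_zero]
  · have hG1 := Real.Gamma_pos_of_pos ha
    have hG2 := Real.Gamma_pos_of_pos hb
    have hG3 := Real.Gamma_pos_of_pos (add_pos ha hb)
    set C : ℝ := r ^ a / Real.Gamma a * (r ^ b / Real.Gamma b) * Real.exp (-(r * x)) with hC
    have hC0 : 0 ≤ C := by positivity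
    have h1 : (fun y => gammaPDF a r y * gammaPDF b r (-y + x)) =ᵐ[volume]
        (Ioo 0 x).indicator (fun y => ENNReal.ofReal C *
          ENNReal.ofReal (y ^ (a - 1) * (x - y) ^ (b - 1))) := by
      have e0 : ∀ᵐ y : ℝ, y ≠ 0 := compl_mem_ae_iff.2 (measure_singleton 0)
      have e1 : ∀ᵐ y : ℝ, y ≠ x := compl_mem_ae_iff.2 (measure_singleton x)
      filter_upwards [e0, e1] with y hy0 hyx
      rcases lt_or_gt_of_ne hy0 with hy | hy
      · rw [gammaPDF_of_neg hy, zero_mul, indicator_of_notMem (fun h => absurd h.1 (by linarith))]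
      · rcases lt_or_gt_of_ne hyx with hy2 | hy2
        · rw [indicator_of_mem (show y ∈ Ioo 0 x from ⟨hy, hy2⟩), gammaPDF_of_nonneg hy.le,
            gammaPDF_of_nonneg (by linarith), ← ENNReal.ofReal_mul (by positivity),
            ← ENNReal.ofReal_mul hC0]
          congr 1
          have e2 : -y + x = x - y := by ring
          have e3 : Real.exp (-(r * x)) = Real.exp (-(r * y)) * Real.exp (-(r * (x - y))) := by
            rw [← Real.exp_add]; congr 1; ring
          rw [e2, hC, e3]
          ring
        · rw [gammaPDF_of_neg (x := -y + x) (by linarith), mul_zero,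
            indicator_of_notMem (fun h => absurd h.2 (by linarith))]
    rw [lintegral_congr_ae h1, lintegral_indicator measurableSet_Ioo, lintegral_const_mul' _ _
      ENNReal.ofReal_ne_top, beta_int ha hb hx, ← ENNReal.ofReal_mul hC0,
      gammaPDF_of_nonneg hx.le]
    congr 1
    have e4 : r ^ (a + b) = r ^ a * r ^ b := Real.rpow_add hr a b
    rw [hC, e4]
    unfold beta
    field_simp

theorem gamma_conv {a b r : ℝ} (ha : 0 < a) (hb : 0 < b) (hr : 0 < r) :
    Measure.map (fun z : ℝ × ℝ => z.1 + z.2) ((gammaMeasure a r).prod (gammaMeasure b r)) =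
      gammaMeasure (a + b) r := by
  have hm : ∀ c : ℝ, Measurable (gammaPDF c r) := fun c =>
    ENNReal.measurable_ofReal.comp (measurable_gammaPDFReal c r)
  have h1 := conv_withDensity_eq_lconvolution (μ := (volume : Measure ℝ)) (hm a) (hm b)
  have h2 : Measure.map (fun z : ℝ × ℝ => z.1 + z.2) ((gammaMeasure a r).prod (gammaMeasure b r)) =
      (volume : Measure ℝ).withDensity (lconvolution (gammaPDF a r) (gammaPDF b r) volume) := h1
  rw [h2]
  unfold gammaMeasure
  refine withDensity_congr_ae ?_
  have e0 : ∀ᵐ y : ℝ, y ≠ 0 := compl_mem_ae_iff.2 (measure_singleton 0)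
  filter_upwards [e0] with x hx
  exact gamma_conv_pdf ha hb hr hx

theorem tT5 : Pool.Agent.Q298.CQ.T5 := by
  intro a b ha hb
  exact gamma_conv ha hb (by norm_num)

end Pool.Agent.Q223.CQ
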